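import Pool.Agent.K3h68.LT.Cnt1
import Pool.Agent.K3h79.LT.Ene
import Pool.Agent.K3h79.LT.Cnt2
import Pool.Agent.K3h49.LT.Orb
import Pool.Agent.K3h69.LT.NEG
import Pool.Agent.K3h52.LT.POS
import Pool.Agent.K3h13.LT.Cyc
import Pool.Agent.K3h6.LT.Sub
import Pool.Agent.K3h51.LT.UNI
import Pool.Agent.K3h33.LT.Fix
import Pool.Agent.K3h4.LT.One
import Pool.Agent.K3h99.LT.SMO
import Pool.Agent.K3h58.LT.Upp
import Pool.Agent.K3h25.LT.Lowa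
import Pool.Agent.K3h91.LT.LOW
import Pool.Agent.K3h35.LT.Dyn
import Pool.Agent.K3h87.LT.IVT
import Pool.Agent.K3h17.LT.Fin
import Pool.Agent.K3h60.LT.Law

/-!
# Uniform Lipschitz functions on the binary tree: assembly (helper2)
-/

set_option autoImplicit false

open Filter Topology

namespace Pool.Agent.K3h2.LT

theorem cnt1_ok : S_CNT1 := Pool.Agent.K3h68.LT.t_CNT1
theorem cnt2_ok : S_CNT2 := Pool.Agent.K3h79.LT.t_CNT2
theorem ene_ok : S_ENE := Pool.Agent.K3h79.LT.t_ENE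
theorem orb_ok : S_ORB := Pool.Agent.K3h49.LT.t_ORB ene_ok
theorem neg_ok : S_NEG := Pool.Agent.K3h69.LT.t_NEG
theorem pos_ok : S_POS := Pool.Agent.K3h52.LT.t_POS
theorem cyc_ok : S_CYC := Pool.Agent.K3h13.LT.t_CYC
theorem sub_ok : S_SUB := Pool.Agent.K3h6.LT.t_SUB
theorem uni_ok : S_UNI := Pool.Agent.K3h51.LT.t_UNI
theorem fix_ok : S_FIX := Pool.Agent.K3h33.LT.t_FIX cyc_ok uni_ok pos_ok ene_ok
theorem one_ok : S_ONE := Pool.Agent.K3h4.LT.t_ONE sub_ok fix_ok uni_ok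
theorem smo_ok : S_SMO := Pool.Agent.K3h99.LT.t_SMO ene_ok
theorem upp_ok : S_UPP := Pool.Agent.K3h58.LT.t_UPP
theorem lowa_ok : S_LOWA := Pool.Agent.K3h25.LT.t_LOWA upp_ok neg_ok pos_ok sub_ok
theorem low_ok : S_LOW := Pool.Agent.K3h91.LT.t_LOW lowa_ok fix_ok sub_ok uni_ok one_ok
theorem dyn_ok : S_DYN := Pool.Agent.K3h35.LT.t_DYN
theorem ivt_ok : S_IVT := Pool.Agent.K3h87.LT.t_IVT
theorem fin_ok : S_FIN :=
  Pool.Agent.K3h17.LT.t_FIN low_ok upp_ok smo_ok one_ok fix_ok sub_ok uni_ok dyn_ok ivt_ok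

theorem main2 (S : Finset ℤ) (hS : S.Nonempty) (r : ℕ) :
    ∃ p : (V 2 r → ℤ) → ℝ, (∀ g, 0 ≤ p g) ∧ HasSum p 1 ∧
    ∀ g, Tendsto (fun n => law 2 (Nat.le_add_right r n) S g) atTop (𝓝 (p g)) := by
  obtain ⟨C, L, s, lam, c, hO, hc, hc1, hZ⟩ := orb_ok S hS
  obtain ⟨x, hx, hlim⟩ := fin_ok C L s lam hO
  exact Pool.Agent.K3h60.LT.t_LAW cnt1_ok cnt2_ok uni_ok C L s lam c S x hS hO hc hc1 hZ hx hlim r

end Pool.Agent.K3h2.LT
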