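import Pool.Agent.K3h2.LT.Main
import Pool.Agent.K3h6.LT.Ene3
import Pool.Agent.K3h97.LT.ORB3
import Pool.Agent.K3h91.LT.INQ3
import Pool.Agent.K3h18.LT.NEG3
import Pool.Agent.K3h96.LT.Cyc3
import Pool.Agent.K3h77.LT.Fix3
import Pool.Agent.K3h35.LT.One3
import Pool.Agent.K3h23.LT.SMO3
import Pool.Agent.K3h40.LT.Upp3
import Pool.Agent.K3h72.LT.Lowa3
import Pool.Agent.K3h59.LT.LOW3
import Pool.Agent.K3h84.LT.Fin3
import Pool.Agent.K3h17.LT.Law3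

/-!
# Uniform Lipschitz functions on the ternary tree: assembly (helper2)
-/

set_option autoImplicit false

open Filter Topology

namespace Pool.Agent.K3h2.LT

theorem ene3_ok : S3_ENE := Pool.Agent.K3h6.LT.t_ENE3
theorem orb3_ok : S3_ORB := Pool.Agent.K3h97.LT.t_ORB3 ene3_ok
theorem neg3_ok : S3_NEG := Pool.Agent.K3h18.LT.t_NEG3 Pool.Agent.K3h91.LT.t_INQ3
theorem cyc3_ok : S3_CYC := Pool.Agent.K3h96.LT.t_CYC3 neg3_ok
theorem fix3_ok : S3_FIX := Pool.Agent.K3h77.LT.t_FIX3 cyc3_ok uni_ok pos_ok ene3_ok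
theorem one3_ok : S3_ONE := Pool.Agent.K3h35.LT.t_ONE3 sub_ok fix3_ok uni_ok
theorem smo3_ok : S3_SMO := Pool.Agent.K3h23.LT.t_SMO3 ene3_ok
theorem upp3_ok : S3_UPP := Pool.Agent.K3h40.LT.t_UPP3
theorem lowa3_ok : S3_LOWA := Pool.Agent.K3h72.LT.t_LOWA3 upp3_ok neg3_ok pos_ok sub_ok
theorem low3_ok : S3_LOW := Pool.Agent.K3h59.LT.t_LOW3 lowa3_ok fix3_ok sub_ok uni_ok one3_ok
theorem fin3_ok : S3_FIN :=
  Pool.Agent.K3h84.LT.t_FIN3 low3_ok upp3_ok smo3_ok one3_ok fix3_ok sub_ok uni_ok dyn_ok ivt_ok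

theorem main3 (S : Finset ℤ) (hS : S.Nonempty) (r : ℕ) :
    ∃ p : (V 3 r → ℤ) → ℝ, (∀ g, 0 ≤ p g) ∧ HasSum p 1 ∧
    ∀ g, Tendsto (fun n => law 3 (Nat.le_add_right r n) S g) atTop (𝓝 (p g)) := by
  obtain ⟨C, L, s, lam, c, hO, hc, hc1, hZ⟩ := orb3_ok S hS
  obtain ⟨x, hx, hlim⟩ := fin3_ok C L s lam hO
  exact Pool.Agent.K3h17.LT.t_LAW3 cnt1_ok cnt2_ok uni_ok C L s lam c S x hS hO hc hc1 hZ hx hlim r

end Pool.Agent.K3h2.LT
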