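import Mathlib

/-!
# Uniform Lipschitz functions on the binary tree: definitions and statements of the bricks (helper2)
-/

set_option autoImplicit false

open Filter Topology

namespace Pool.Agent.K3h2.LT

/-! ### the tree -/

/-- the vertices of `T_d^n`: words of length at most `n`; the root is the empty word, the children
of `w` are the words `w ++ [i]` -/
abbrev V (d n : ℕ) := {w : List (Fin d) // w.length ≤ n}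

/-- the Lipschitz functions on `T_d^n` with values in `S` at all leaves -/
def Lip (d n : ℕ) (S : Finset ℤ) : Set (V d n → ℤ) :=
  {f | (∀ (w : List (Fin d)) (i : Fin d) (h : (w ++ [i]).length ≤ n) (h' : w.length ≤ n),
      |f ⟨w ++ [i], h⟩ - f ⟨w, h'⟩| ≤ 1) ∧ ∀ w : V d n, w.1.length = n → f w ∈ S}

/-- the restriction to `T_d^r` -/
def res (d : ℕ) {r n : ℕ} (h : r ≤ n) (f : V d n → ℤ) : V d r → ℤ := fun w => f ⟨w.1, w.2.trans h⟩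

/-- the probability that the restriction to `T_d^r` of the uniform random element of `Lip d n S`
is `g` -/
noncomputable def law (d : ℕ) {r n : ℕ} (h : r ≤ n) (S : Finset ℤ) (g : V d r → ℤ) : ℝ :=
  ({f ∈ Lip d n S | res d h f = g}.ncard : ℝ) / ((Lip d n S).ncard : ℝ)

/-- the number of elements of `Lip d n S` with the value `k` at the root -/
def Zc (d : ℕ) (S : Finset ℤ) : ℕ → ℤ → ℕ
  | 0, k => if k ∈ S then 1 else 0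
  | n + 1, k => (Zc d S n (k - 1) + Zc d S n k + Zc d S n (k + 1)) ^ d

/-- CNT1 -/
def S_CNT1 : Prop := ∀ (d : ℕ) (S : Finset ℤ), 1 ≤ d → ∀ n : ℕ, (Lip d n S).Finite ∧
  ∀ k : ℤ, {f ∈ Lip d n S | f ⟨[], Nat.zero_le n⟩ = k}.ncard = Zc d S n k

/-- the subtree of `g` at the child `i` of the root -/
def sub {d r : ℕ} (g : V d (r + 1) → ℤ) (i : Fin d) : V d r → ℤ :=
  fun w => g ⟨i :: w.1, by simpa using w.2⟩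

open Classical in
/-- CNT2 -/
def S_CNT2 : Prop := ∀ (d : ℕ) (S : Finset ℤ), 1 ≤ d → ∀ (r n : ℕ) (h : r ≤ n)
  (g : V d (r + 1) → ℤ),
  {f ∈ Lip d (n + 1) S | res d (Nat.succ_le_succ h) f = g}.ncard =
    if ∀ i, |sub g i ⟨[], Nat.zero_le r⟩ - g ⟨[], Nat.zero_le (r + 1)⟩| ≤ 1 then
      ∏ i, {f ∈ Lip d n S | res d h f = sub g i}.ncard else 0

/-! ### sequences -/

/-- normalised orbit with summable terms -/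
structure Orb0 (s : ℕ → ℤ → ℝ) (lam : ℕ → ℝ) : Prop where
  nonneg : ∀ n k, 0 ≤ s n k
  summable : ∀ n, Summable (s n)
  cube : ∀ n, HasSum (fun k => s n k ^ 3) 1
  pos : ∀ n, 0 < lam n
  step : ∀ n k, lam n * s (n + 1) k = s n (k - 1) ^ 2 + s n k ^ 2 + s n (k + 1) ^ 2

/-- dominated normalised orbit; `L` is the limit of `lam` -/
structure Orb (C L : ℝ) (s : ℕ → ℤ → ℝ) (lam : ℕ → ℝ) : Prop extends Orb0 s lam where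
  Cpos : 1 ≤ C
  dom : ∀ n k, s n k ≤ C * (1 / 2) ^ k.natAbs
  Lpos : 0 < L
  mono : Monotone lam
  le3 : ∀ n, lam n ≤ 3
  leL : ∀ n, lam n ≤ L
  lim : Tendsto lam atTop (𝓝 L)

/-- fixed points -/
structure Fx (C L : ℝ) (x : ℤ → ℝ) : Prop where
  pos : ∀ k, 0 < x k
  dom : ∀ k, x k ≤ C * (1 / 2) ^ k.natAbs
  cube : HasSum (fun k => x k ^ 3) 1
  eq : ∀ k, L * x k = x (k - 1) ^ 2 + x k ^ 2 + x (k + 1) ^ 2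
  small : ∀ k, 2 * x k < L

/-- ENE: the energy identity -/
def S_ENE : Prop := ∀ (s : ℕ → ℤ → ℝ) (lam : ℕ → ℝ), Orb0 s lam → ∀ n,
  lam n ≤ 3 ∧ lam n ≤ lam (n + 1) ∧
  HasSum (fun k => (s (n + 2) k - s n k) ^ 2 * (s (n + 2) k + 2 * s n k))
    (3 * (lam (n + 1) - lam n) / lam (n + 1))

/-- ORB: the normalised orbit exists and is dominated -/
def S_ORB : Prop := ∀ S : Finset ℤ, S.Nonempty → ∃ (C L : ℝ) (s : ℕ → ℤ → ℝ) (lam c : ℕ → ℝ),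
  Orb C L s lam ∧ (∀ n, 0 < c n) ∧ (∀ n, c (n + 1) = c n ^ 2 * lam n) ∧
    ∀ n k, (Zc 2 S n k : ℝ) = (c n * s n k) ^ 2

/-- NEG -/
def S_NEG : Prop := ∀ (L B : ℝ) (g h : ℤ → ℝ), 0 < L → (∀ k, 0 < g k ∧ g k < L) → Summable g →
  (∀ k, |h k| ≤ B) →
  (∀ k, L * h k = -(g (k - 1) * h (k - 1) + g k * h k + g (k + 1) * h (k + 1))) → ∀ k, h k = 0

/-- POS -/
def S_POS : Prop := ∀ (L B : ℝ) (g h : ℤ → ℝ) (M : ℤ), 0 < L → (∀ k, 0 < g k) →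
  (∀ k, M < k → g k ≤ L / 4) → (∀ k, |h k| ≤ B) →
  (∀ k, L * h k = g (k - 1) * h (k - 1) + g k * h k + g (k + 1) * h (k + 1)) → h M = 0 →
    ∀ k, h k = 0

/-- CYC: pairs of period two are fixed -/
def S_CYC : Prop := ∀ (C L : ℝ) (x y : ℤ → ℝ), 0 < L → (∀ k, 0 ≤ x k) → (∀ k, 0 ≤ y k) →
  (∀ k, x k ≤ C * (1 / 2) ^ k.natAbs) → (∀ k, y k ≤ C * (1 / 2) ^ k.natAbs) →
  HasSum (fun k => x k ^ 3) 1 →
  (∀ k, L * y k = x (k - 1) ^ 2 + x k ^ 2 + x (k + 1) ^ 2) →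
  (∀ k, L * x k = y (k - 1) ^ 2 + y k ^ 2 + y (k + 1) ^ 2) → Fx C L x ∧ x = y

/-- SUB: pointwise convergent subsequences -/
def S_SUB : Prop := ∀ (f : ℕ → ℤ → ℝ) (C : ℝ), (∀ n k, |f n k| ≤ C) →
  ∃ (ψ : ℕ → ℕ) (x : ℤ → ℝ), StrictMono ψ ∧ ∀ k, Tendsto (fun j => f (ψ j) k) atTop (𝓝 (x k))

/-- FIX: limit points are fixed points, limits of fixed points are fixed points, and fixed points
are determined by their value at `M` -/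
def S_FIX : Prop :=
  (∀ (C L : ℝ) (s : ℕ → ℤ → ℝ) (lam : ℕ → ℝ), Orb C L s lam → ∀ (φ : ℕ → ℕ) (x : ℤ → ℝ),
    Tendsto φ atTop atTop → (∀ k, Tendsto (fun j => s (φ j) k) atTop (𝓝 (x k))) →
    Fx C L x ∧ ∀ k, Tendsto (fun j => s (φ j + 1) k) atTop (𝓝 (x k))) ∧
  (∀ (C L : ℝ) (y : ℕ → ℤ → ℝ) (x : ℤ → ℝ), 0 < L → 1 ≤ C → (∀ j, Fx C L (y j)) →
    (∀ k, Tendsto (fun j => y j k) atTop (𝓝 (x k))) → Fx C L x) ∧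
  (∀ (C L : ℝ) (x x' : ℤ → ℝ) (M : ℤ), 0 < L → (∀ k, M < k → 2 * C * (1 / 2) ^ k.natAbs ≤ L / 4) →
    Fx C L x → Fx C L x' → x M = x' M → x = x')

/-- UNI: pointwise convergence of dominated sequences is uniform -/
def S_UNI : Prop := ∀ (C : ℝ) (f : ℕ → ℤ → ℝ) (x : ℤ → ℝ),
  (∀ n k, 0 ≤ f n k ∧ f n k ≤ C * (1 / 2) ^ k.natAbs) →
  (∀ k, Tendsto (fun n => f n k) atTop (𝓝 (x k))) →
  (∀ ε : ℝ, 0 < ε → ∃ N, ∀ n ≥ N, ∀ k, |f n k - x k| ≤ ε) ∧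
  ∀ p : ℕ, 1 ≤ p → Summable (fun k => x k ^ p) ∧
    Tendsto (fun n => ∑' k, f n k ^ p) atTop (𝓝 (∑' k, x k ^ p))

/-- ONE: consecutive terms are close -/
def S_ONE : Prop := ∀ (C L : ℝ) (s : ℕ → ℤ → ℝ) (lam : ℕ → ℝ), Orb C L s lam →
  ∀ ε : ℝ, 0 < ε → ∃ N, ∀ n ≥ N, ∀ k, |s (n + 1) k - s n k| ≤ ε

/-- SMO -/
def S_SMO : Prop := ∀ (C L : ℝ) (s : ℕ → ℤ → ℝ) (lam : ℕ → ℝ), Orb C L s lam →
  ∃ K : ℝ, 0 < K ∧ ∀ n k, |s (n + 3) k - s (n + 1) k| ≤ K * Real.sqrt (lam (n + 2) - lam n)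

/-- UPP -/
def S_UPP : Prop := ∀ (C L : ℝ) (s : ℕ → ℤ → ℝ) (lam : ℕ → ℝ), Orb C L s lam →
  ∃ K : ℝ, 0 < K ∧ ∀ (n : ℕ) (y : ℤ → ℝ) (δ : ℝ), Fx C L y → 0 ≤ δ → (∀ k, |s n k - y k| ≤ δ) →
    L - lam n ≤ K * δ ^ 2

/-- LOWA: the limit argument -/
def S_LOWA : Prop := ∀ (C L : ℝ) (s : ℕ → ℤ → ℝ) (lam : ℕ → ℝ), Orb C L s lam →
  ∀ (M : ℤ), (∀ k, M < k → 2 * C * (1 / 2) ^ k.natAbs ≤ L / 4) →
  ∀ (n : ℕ → ℕ) (y : ℕ → ℤ → ℝ) (η : ℕ → ℝ) (x0 : ℤ → ℝ), Fx C L x0 → (∀ j, Fx C L (y j)) →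
  (∀ j, 0 < η j) → Tendsto η atTop (𝓝 0) → (∀ j k, |s (n j) k - y j k| ≤ η j) →
  (∀ j, ∃ k, 3 / 4 * η j ≤ |s (n j) k - y j k|) →
  (∀ j k, |s (n j + 2) k - s (n j) k| ≤ η j / (j + 1)) → (∀ j, s (n j) M = y j M) →
  (∀ k, Tendsto (fun j => s (n j) k) atTop (𝓝 (x0 k))) →
  (∀ k, Tendsto (fun j => s (n j + 1) k) atTop (𝓝 (x0 k))) →
  (∀ k, Tendsto (fun j => y j k) atTop (𝓝 (x0 k))) → False

/-- LOW -/
def S_LOW : Prop := ∀ (C L : ℝ) (s : ℕ → ℤ → ℝ) (lam : ℕ → ℝ), Orb C L s lam →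
  ∀ (M : ℤ), (∀ k, M < k → 2 * C * (1 / 2) ^ k.natAbs ≤ L / 4) →
  ∀ (x0 : ℤ → ℝ) (ρ : ℝ), Fx C L x0 → 0 < ρ → (∀ t, |t - x0 M| < ρ → ∃ y, Fx C L y ∧ y M = t) →
  ∃ (ε K : ℝ) (N : ℕ), 0 < ε ∧ 0 < K ∧ ∀ n ≥ N, (∀ k, |s n k - x0 k| ≤ ε) →
    ∃ y, Fx C L y ∧ ∀ δ : ℝ, 0 ≤ δ → (∀ k, |s (n + 2) k - s n k| ≤ δ) → ∀ k, |s n k - y k| ≤ K * δ

/-- DYN -/
def S_DYN : Prop := ∀ (s : ℕ → ℤ → ℝ) (x0 : ℤ → ℝ) (r : ℕ → ℝ) (K ε : ℝ) (N : ℕ), 0 < K → 0 < ε →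
  (∀ n, 0 ≤ r n) → Antitone r → Tendsto r atTop (𝓝 0) →
  (∀ n k, |s (n + 3) k - s (n + 1) k| ≤ K * Real.sqrt (r n - r (n + 2))) →
  (∀ n ≥ N, (∀ k, |s (n + 1) k - x0 k| ≤ ε) → r (n + 1) ≤ K * (r n - r (n + 2))) →
  (∀ ε' : ℝ, 0 < ε' → ∀ N', ∃ n ≥ N', ∀ k, |s n k - x0 k| ≤ ε' ∧ |s (n + 1) k - x0 k| ≤ ε') →
  ∀ ε' : ℝ, 0 < ε' → ∃ N', ∀ n ≥ N', ∀ k, |s n k - x0 k| ≤ ε'

/-- IVT: limit points of slowly varying real sequences form an interval -/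
def S_IVT : Prop := ∀ (t : ℕ → ℝ), Tendsto (fun n => t (n + 1) - t n) atTop (𝓝 0) →
  ∀ (a b c : ℝ) (φ ψ : ℕ → ℕ), StrictMono φ → StrictMono ψ →
  Tendsto (fun j => t (φ j)) atTop (𝓝 a) → Tendsto (fun j => t (ψ j)) atTop (𝓝 b) → a < c → c < b →
  ∃ θ : ℕ → ℕ, StrictMono θ ∧ Tendsto (fun j => t (θ j)) atTop (𝓝 c)

/-- FIN -/
def S_FIN : Prop := ∀ (C L : ℝ) (s : ℕ → ℤ → ℝ) (lam : ℕ → ℝ), Orb C L s lam →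
  ∃ x : ℤ → ℝ, Fx C L x ∧ ∀ k, Tendsto (fun n => s n k) atTop (𝓝 (x k))

/-- LAW: from sequences to trees -/
def S_LAW : Prop := ∀ (C L : ℝ) (s : ℕ → ℤ → ℝ) (lam c : ℕ → ℝ) (S : Finset ℤ) (x : ℤ → ℝ),
  S.Nonempty → Orb C L s lam → (∀ n, 0 < c n) → (∀ n, c (n + 1) = c n ^ 2 * lam n) →
  (∀ n k, (Zc 2 S n k : ℝ) = (c n * s n k) ^ 2) → Fx C L x →
  (∀ k, Tendsto (fun n => s n k) atTop (𝓝 (x k))) →
  ∀ r : ℕ, ∃ p : (V 2 r → ℤ) → ℝ, (∀ g, 0 ≤ p g) ∧ HasSum p 1 ∧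
    ∀ g, Tendsto (fun n => law 2 (Nat.le_add_right r n) S g) atTop (𝓝 (p g))

end Pool.Agent.K3h2.LT
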