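import Pool.Agent.K3h2.LT.Stm

/-!
# Uniform Lipschitz functions on the ternary tree: statements of the bricks (helper2)
-/

set_option autoImplicit false

open Filter Topology

namespace Pool.Agent.K3h2.LT

/-- normalised orbit with summable terms, `d = 3` -/
structure Orb03 (s : ℕ → ℤ → ℝ) (lam : ℕ → ℝ) : Prop where
  nonneg : ∀ n k, 0 ≤ s n k
  summable : ∀ n, Summable (s n)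
  quart : ∀ n, HasSum (fun k => s n k ^ 4) 1
  pos : ∀ n, 0 < lam n
  step : ∀ n k, lam n * s (n + 1) k = s n (k - 1) ^ 3 + s n k ^ 3 + s n (k + 1) ^ 3

/-- dominated normalised orbit, `d = 3` -/
structure Orb3 (C L : ℝ) (s : ℕ → ℤ → ℝ) (lam : ℕ → ℝ) : Prop extends Orb03 s lam where
  Cpos : 1 ≤ C
  dom : ∀ n k, s n k ≤ C * (1 / 2) ^ k.natAbs
  Lpos : 0 < L
  mono : Monotone lam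
  le3 : ∀ n, lam n ≤ 3
  leL : ∀ n, lam n ≤ L
  lim : Tendsto lam atTop (𝓝 L)

/-- fixed points, `d = 3` -/
structure Fx3 (C L : ℝ) (x : ℤ → ℝ) : Prop where
  pos : ∀ k, 0 < x k
  dom : ∀ k, x k ≤ C * (1 / 2) ^ k.natAbs
  quart : HasSum (fun k => x k ^ 4) 1
  eq : ∀ k, L * x k = x (k - 1) ^ 3 + x k ^ 3 + x (k + 1) ^ 3

/-- ENE3: the energy identity -/
def S3_ENE : Prop := ∀ (s : ℕ → ℤ → ℝ) (lam : ℕ → ℝ), Orb03 s lam → ∀ n,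
  lam n ≤ 3 ∧ lam n ≤ lam (n + 1) ∧
  HasSum (fun k => (s (n + 2) k - s n k) ^ 2 *
      (s (n + 2) k ^ 2 + 2 * s (n + 2) k * s n k + 3 * s n k ^ 2))
    (4 * (lam (n + 1) - lam n) / lam (n + 1))

/-- ORB3 -/
def S3_ORB : Prop := ∀ S : Finset ℤ, S.Nonempty → ∃ (C L : ℝ) (s : ℕ → ℤ → ℝ) (lam c : ℕ → ℝ),
  Orb3 C L s lam ∧ (∀ n, 0 < c n) ∧ (∀ n, c (n + 1) = c n ^ 3 * lam n) ∧
    ∀ n k, (Zc 3 S n k : ℝ) = (c n * s n k) ^ 3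

/-- INQ3: the inequality at one place -/
def S3_INQ : Prop := ∀ (x y c : ℝ), 0 < x → 0 < y → 0 < c → 27 * c ^ 2 = 4 →
  ((x + y) / 2 + 3 * c) * (x ^ 2 + x * y + y ^ 2) ≤
    (2 * (x ^ 2 + x * y + y ^ 2) + 1) * ((x ^ 3 + y ^ 3) / 2 + c)

/-- NEG3 -/
def S3_NEG : Prop := ∀ (L B : ℝ) (x y h : ℤ → ℝ), 0 < L → (∀ k, 0 < x k) → (∀ k, 0 < y k) →
  Summable x → Summable y →
  (∀ k, L * y k = x (k - 1) ^ 3 + x k ^ 3 + x (k + 1) ^ 3) →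
  (∀ k, L * x k = y (k - 1) ^ 3 + y k ^ 3 + y (k + 1) ^ 3) →
  (∀ k, |h k| ≤ B) →
  (∀ G : ℤ → ℝ, (∀ k, G k = x k ^ 2 + x k * y k + y k ^ 2) →
    ∀ k, L * h k = -(G (k - 1) * h (k - 1) + G k * h k + G (k + 1) * h (k + 1))) → ∀ k, h k = 0

/-- CYC3: pairs of period two are fixed -/
def S3_CYC : Prop := ∀ (C L : ℝ) (x y : ℤ → ℝ), 0 < L → (∀ k, 0 ≤ x k) → (∀ k, 0 ≤ y k) →
  (∀ k, x k ≤ C * (1 / 2) ^ k.natAbs) → (∀ k, y k ≤ C * (1 / 2) ^ k.natAbs) →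
  HasSum (fun k => x k ^ 4) 1 →
  (∀ k, L * y k = x (k - 1) ^ 3 + x k ^ 3 + x (k + 1) ^ 3) →
  (∀ k, L * x k = y (k - 1) ^ 3 + y k ^ 3 + y (k + 1) ^ 3) → Fx3 C L x ∧ x = y

/-- FIX3 -/
def S3_FIX : Prop :=
  (∀ (C L : ℝ) (s : ℕ → ℤ → ℝ) (lam : ℕ → ℝ), Orb3 C L s lam → ∀ (φ : ℕ → ℕ) (x : ℤ → ℝ),
    Tendsto φ atTop atTop → (∀ k, Tendsto (fun j => s (φ j) k) atTop (𝓝 (x k))) →
    Fx3 C L x ∧ ∀ k, Tendsto (fun j => s (φ j + 1) k) atTop (𝓝 (x k))) ∧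
  (∀ (C L : ℝ) (y : ℕ → ℤ → ℝ) (x : ℤ → ℝ), 0 < L → 1 ≤ C → (∀ j, Fx3 C L (y j)) →
    (∀ k, Tendsto (fun j => y j k) atTop (𝓝 (x k))) → Fx3 C L x) ∧
  (∀ (C L : ℝ) (x x' : ℤ → ℝ) (M : ℤ), 0 < L → 1 ≤ C →
    (∀ k, M < k → 3 * C ^ 2 * (1 / 2) ^ k.natAbs ≤ L / 4) →
    Fx3 C L x → Fx3 C L x' → x M = x' M → x = x')

/-- ONE3 -/
def S3_ONE : Prop := ∀ (C L : ℝ) (s : ℕ → ℤ → ℝ) (lam : ℕ → ℝ), Orb3 C L s lam →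
  ∀ ε : ℝ, 0 < ε → ∃ N, ∀ n ≥ N, ∀ k, |s (n + 1) k - s n k| ≤ ε

/-- SMO3 -/
def S3_SMO : Prop := ∀ (C L : ℝ) (s : ℕ → ℤ → ℝ) (lam : ℕ → ℝ), Orb3 C L s lam →
  ∃ K : ℝ, 0 < K ∧ ∀ n k, |s (n + 3) k - s (n + 1) k| ≤ K * Real.sqrt (lam (n + 2) - lam n)

/-- UPP3 -/
def S3_UPP : Prop := ∀ (C L : ℝ) (s : ℕ → ℤ → ℝ) (lam : ℕ → ℝ), Orb3 C L s lam →
  ∃ K : ℝ, 0 < K ∧ ∀ (n : ℕ) (y : ℤ → ℝ) (δ : ℝ), Fx3 C L y → 0 ≤ δ → (∀ k, |s n k - y k| ≤ δ) →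
    L - lam n ≤ K * δ ^ 2

/-- LOWA3 -/
def S3_LOWA : Prop := ∀ (C L : ℝ) (s : ℕ → ℤ → ℝ) (lam : ℕ → ℝ), Orb3 C L s lam →
  ∀ (M : ℤ), (∀ k, M < k → 3 * C ^ 2 * (1 / 2) ^ k.natAbs ≤ L / 4) →
  ∀ (n : ℕ → ℕ) (y : ℕ → ℤ → ℝ) (η : ℕ → ℝ) (x0 : ℤ → ℝ), Fx3 C L x0 → (∀ j, Fx3 C L (y j)) →
  (∀ j, 0 < η j) → Tendsto η atTop (𝓝 0) → (∀ j k, |s (n j) k - y j k| ≤ η j) →
  (∀ j, ∃ k, 3 / 4 * η j ≤ |s (n j) k - y j k|) →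
  (∀ j k, |s (n j + 2) k - s (n j) k| ≤ η j / (j + 1)) → (∀ j, s (n j) M = y j M) →
  (∀ k, Tendsto (fun j => s (n j) k) atTop (𝓝 (x0 k))) →
  (∀ k, Tendsto (fun j => s (n j + 1) k) atTop (𝓝 (x0 k))) →
  (∀ k, Tendsto (fun j => y j k) atTop (𝓝 (x0 k))) → False

/-- LOW3 -/
def S3_LOW : Prop := ∀ (C L : ℝ) (s : ℕ → ℤ → ℝ) (lam : ℕ → ℝ), Orb3 C L s lam →
  ∀ (M : ℤ), (∀ k, M < k → 3 * C ^ 2 * (1 / 2) ^ k.natAbs ≤ L / 4) →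
  ∀ (x0 : ℤ → ℝ) (ρ : ℝ), Fx3 C L x0 → 0 < ρ → (∀ t, |t - x0 M| < ρ → ∃ y, Fx3 C L y ∧ y M = t) →
  ∃ (ε K : ℝ) (N : ℕ), 0 < ε ∧ 0 < K ∧ ∀ n ≥ N, (∀ k, |s n k - x0 k| ≤ ε) →
    ∃ y, Fx3 C L y ∧ ∀ δ : ℝ, 0 ≤ δ → (∀ k, |s (n + 2) k - s n k| ≤ δ) → ∀ k, |s n k - y k| ≤ K * δ

/-- FIN3 -/
def S3_FIN : Prop := ∀ (C L : ℝ) (s : ℕ → ℤ → ℝ) (lam : ℕ → ℝ), Orb3 C L s lam →
  ∃ x : ℤ → ℝ, Fx3 C L x ∧ ∀ k, Tendsto (fun n => s n k) atTop (𝓝 (x k))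

/-- LAW3: from sequences to trees -/
def S3_LAW : Prop := ∀ (C L : ℝ) (s : ℕ → ℤ → ℝ) (lam c : ℕ → ℝ) (S : Finset ℤ) (x : ℤ → ℝ),
  S.Nonempty → Orb3 C L s lam → (∀ n, 0 < c n) → (∀ n, c (n + 1) = c n ^ 3 * lam n) →
  (∀ n k, (Zc 3 S n k : ℝ) = (c n * s n k) ^ 3) → Fx3 C L x →
  (∀ k, Tendsto (fun n => s n k) atTop (𝓝 (x k))) →
  ∀ r : ℕ, ∃ p : (V 3 r → ℤ) → ℝ, (∀ g, 0 ≤ p g) ∧ HasSum p 1 ∧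
    ∀ g, Tendsto (fun n => law 3 (Nat.le_add_right r n) S g) atTop (𝓝 (p g))

end Pool.Agent.K3h2.LT
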